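import Pool.Agent.Helper14.PT.A1

/-!
# Polynomial time functions: pairs, constants, case distinction
-/

set_option autoImplicit false

namespace Pool.Agent.Helper36.PT

open Pool.Agent.Helper68.SP

theorem ExecLe.push_x (c : Bool) (i x r a b o : List Bool) :
    ExecLe (.push .x c) (st i x r a b o) 1 (st i (c :: x) r a b o) := by
  have h := ExecLe.push .x c (st i x r a b o)
  simp only [upd_x, st_x] at h
  exact h

theorem ExecLe.pop_x (i x r a b o : List Bool) :
    ExecLe (.pop .x) (st i x r a b o) 1 (st i x.tail r a b o) := by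
  have h := ExecLe.pop .x (st i x r a b o)
  simp only [upd_x, st_x] at h
  exact h

theorem ExecLe.push_a (c : Bool) (i x r a b o : List Bool) :
    ExecLe (.push .a c) (st i x r a b o) 1 (st i x r (c :: a) b o) := by
  have h := ExecLe.push .a c (st i x r a b o)
  simp only [upd_a, st_a] at h
  exact h

theorem ExecLe.pop_a (i x r a b o : List Bool) :
    ExecLe (.pop .a) (st i x r a b o) 1 (st i x r a.tail b o) := by
  have h := ExecLe.pop .a (st i x r a b o)
  simp only [upd_a, st_a] at h
  exact h

section A2

variable {w u v X : List Bool}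

theorem does_pairF : Does pairF (fr u ++ (fr v ++ X)) (20 * u.length + 10)
    (fr (fr u ++ v) ++ X) := by
  intro i r o
  have h1 := exec_mvF .x .a (by decide) u (st i (fr u ++ (fr v ++ X)) r [] [] o) (fr v ++ X) rfl
  simp only [upd_x, upd_a, st_a, List.append_nil] at h1
  have h2 := ExecLe.push_x false i (fr v ++ X) r (fr u.reverse) [] o
  have h3 := ExecLe.push_x true i (false :: (fr v ++ X)) r (fr u.reverse) [] o
  have key : ∀ (l u' : List Bool),
      ExecLe (.whl .a isT (.seq (.pop .a) (.seq (mvBit .a .x)
        (.seq (.push .x true) (.seq (.push .x true) (.push .x true))))))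
        (st i (fr (fr u' ++ v) ++ X) r (fr l) [] o) (8 * l.length + 1)
        (st i (fr (fr (l.reverse ++ u') ++ v) ++ X) r (fr []) [] o) := by
    intro l
    induction l with
    | nil =>
      intro u'
      exact (ExecLe.whl_done rfl).mono (by simp)
    | cons c l ih =>
      intro u'
      have k1 := ExecLe.pop_a i (fr (fr u' ++ v) ++ X) r (fr (c :: l)) [] o
      have k2 := exec_mvBit .a .x (by decide)
        (st i (fr (fr u' ++ v) ++ X) r ((fr (c :: l)).tail) [] o) c (fr l) rfl
      simp only [upd_a, upd_x, st_x] at k2
      have k3 := ExecLe.push_x true i (c :: (fr (fr u' ++ v) ++ X)) r (fr l) [] o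
      have k4 := ExecLe.push_x true i (true :: c :: (fr (fr u' ++ v) ++ X)) r (fr l) [] o
      have k5 := ExecLe.push_x true i (true :: true :: c :: (fr (fr u' ++ v) ++ X)) r (fr l) [] o
      have k6 := ih (c :: u')
      have k7 := (ExecLe.whl_step rfl (k1.seq (k2.seq (k3.seq (k4.seq k5)))) k6).mono
        (m := 8 * (c :: l).length + 1) (by rw [List.length_cons]; omega)
      rw [List.reverse_cons, List.append_assoc]
      exact k7
  have h4 := key u.reverse []
  rw [List.append_nil, List.reverse_reverse] at h4
  have h5 := ExecLe.pop_a i (fr (fr u ++ v) ++ X) r (fr []) [] o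
  refine (h1.seq (h2.seq (h3.seq (h4.seq h5)))).mono ?_
  rw [List.length_reverse]
  omega

theorem does_unpairF : Does unpairF (fr (fr u ++ v) ++ X) (20 * u.length + 10)
    (fr u ++ (fr v ++ X)) := by
  intro i r o
  have h1 := ExecLe.push_a false i (fr (fr u ++ v) ++ X) r [] [] o
  have h2 := ExecLe.pop_x i (fr (fr u ++ v) ++ X) r (fr []) [] o
  have key : ∀ (u' l : List Bool),
      ExecLe (.whl .x isT (.seq (.pop .x) (.seq (.pop .x) (.seq (mvBit .x .a)
        (.seq (.push .a true) (.pop .x))))))
        (st i (fr (fr u' ++ v) ++ X).tail r (fr l) [] o) (8 * u'.length + 1)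
        (st i (fr (fr [] ++ v) ++ X).tail r (fr (u'.reverse ++ l)) [] o) := by
    intro u'
    induction u' with
    | nil =>
      intro l
      exact (ExecLe.whl_done rfl).mono (by simp)
    | cons c u' ih =>
      intro l
      have k1 := ExecLe.pop_x i (true :: true :: c :: (fr (fr u' ++ v) ++ X)) r (fr l) [] o
      have k2 := ExecLe.pop_x i (true :: c :: (fr (fr u' ++ v) ++ X)) r (fr l) [] o
      have k3 := exec_mvBit .x .a (by decide)
        (st i (c :: (fr (fr u' ++ v) ++ X)) r (fr l) [] o) c (fr (fr u' ++ v) ++ X) rfl
      simp only [upd_a, upd_x, st_a] at k3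
      have k4 := ExecLe.push_a true i (fr (fr u' ++ v) ++ X) r (c :: fr l) [] o
      have k5 := ExecLe.pop_x i (fr (fr u' ++ v) ++ X) r (true :: c :: fr l) [] o
      have k6 := ih (c :: l)
      have k7 := (ExecLe.whl_step rfl (k1.seq (k2.seq (k3.seq (k4.seq k5)))) k6).mono
        (m := 8 * (c :: u').length + 1) (by rw [List.length_cons]; omega)
      rw [List.reverse_cons, List.append_assoc]
      exact k7
  have h3 := key u []
  rw [List.append_nil] at h3
  have h4 := ExecLe.pop_x i (fr (fr [] ++ v) ++ X).tail r (fr u.reverse) [] o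
  have h5 := exec_mvF .a .x (by decide) u.reverse (st i (fr v ++ X) r (fr u.reverse) [] o) []
    (by simp only [st_a, List.append_nil])
  simp only [upd_a, upd_x, st_x, List.reverse_reverse] at h5
  refine (h1.seq (h2.seq (h3.seq (h4.seq h5)))).mono ?_
  rw [List.length_reverse]
  omega

theorem does_sizeF : Does sizeF (fr w ++ X) (20 * w.length + 10)
    (fr (List.replicate w.length true) ++ X) := by
  intro i r o
  have h1 := exec_mvF .x .a (by decide) w (st i (fr w ++ X) r [] [] o) X rfl
  simp only [upd_x, upd_a, st_a, List.append_nil] at h1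
  have h2 := ExecLe.push_x false i X r (fr w.reverse) [] o
  have key : ∀ (l : List Bool) (k : ℕ),
      ExecLe (.whl .a isT (.seq (.pop .a) (.seq (.pop .a)
        (.seq (.push .x true) (.push .x true)))))
        (st i (fr (List.replicate k true) ++ X) r (fr l) [] o) (5 * l.length + 1)
        (st i (fr (List.replicate (l.length + k) true) ++ X) r (fr []) [] o) := by
    intro l
    induction l with
    | nil =>
      intro k
      have e : ([] : List Bool).length + k = k := Nat.zero_add k
      rw [e]
      have h0 : ExecLe (.whl .a isT (.seq (.pop .a) (.seq (.pop .a)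
          (.seq (.push .x true) (.push .x true)))))
          (st i (fr (List.replicate k true) ++ X) r (fr []) [] o) 1
          (st i (fr (List.replicate k true) ++ X) r (fr []) [] o) := ExecLe.whl_done rfl
      exact h0.mono (by simp)
    | cons c l ih =>
      intro k
      have k1 := ExecLe.pop_a i (fr (List.replicate k true) ++ X) r (fr (c :: l)) [] o
      have k2 := ExecLe.pop_a i (fr (List.replicate k true) ++ X) r (fr (c :: l)).tail [] o
      have k3 := ExecLe.push_x true i (fr (List.replicate k true) ++ X) r (fr l) [] o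
      have k4 := ExecLe.push_x true i (true :: (fr (List.replicate k true) ++ X)) r (fr l) [] o
      have k6 := ih (k + 1)
      rw [show l.length + (k + 1) = (c :: l).length + k by rw [List.length_cons]; omega] at k6
      refine (ExecLe.whl_step rfl (k1.seq (k2.seq (k3.seq k4))) k6).mono ?_
      rw [List.length_cons]
      omega
  have h3 := key w.reverse 0
  rw [List.length_reverse, Nat.add_zero] at h3
  have h4 := ExecLe.pop_a i (fr (List.replicate w.length true) ++ X) r (fr []) [] o
  refine (h1.seq (h2.seq (h3.seq h4))).mono ?_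
  omega

theorem does_constF : Does (constF w) X (2 * w.length + 1) (fr w ++ X) := by
  intro i r o
  induction w with
  | nil => exact ExecLe.push_x false i X r [] [] o
  | cons c w ih =>
    have k3 := ExecLe.push_x c i (fr w ++ X) r [] [] o
    have k4 := ExecLe.push_x true i (c :: (fr w ++ X)) r [] [] o
    refine (ih.seq (k3.seq k4)).mono ?_
    rw [List.length_cons]
    omega

theorem does_caseF_nil {p pf pt : P} {n : ℕ} {Y : List Bool} (h : Does p (fr [] ++ X) n Y) :
    Does (caseF p pf pt) (fr [] ++ X) (n + 1) Y := by
  intro i r o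
  exact ExecLe.ite_false rfl (h i r o)

theorem does_caseF_false {p pf pt : P} {n : ℕ} {Y : List Bool} (h : Does pf (fr w ++ X) n Y) :
    Does (caseF p pf pt) (fr (false :: w) ++ X) (n + 4) Y := by
  intro i r o
  have k1 := ExecLe.pop_x i (fr (false :: w) ++ X) r [] [] o
  have k2 := ExecLe.pop_x i (false :: (fr w ++ X)) r [] [] o
  refine (ExecLe.ite_true rfl (k1.seq (ExecLe.ite_false rfl (k2.seq (h i r o))))).mono ?_
  omega

theorem does_caseF_true {p pf pt : P} {n : ℕ} {Y : List Bool} (h : Does pt (fr w ++ X) n Y) :
    Does (caseF p pf pt) (fr (true :: w) ++ X) (n + 4) Y := by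
  intro i r o
  have k1 := ExecLe.pop_x i (fr (true :: w) ++ X) r [] [] o
  have k2 := ExecLe.pop_x i (true :: (fr w ++ X)) r [] [] o
  refine (ExecLe.ite_true rfl (k1.seq (ExecLe.ite_true rfl (k2.seq (h i r o))))).mono ?_
  omega

end A2

end Pool.Agent.Helper36.PT
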