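import Pool.Agent.Helper14.PT.A1

/-!
# Polynomial time functions: loops, input, output, and the Turing machine
-/

set_option autoImplicit false

namespace Pool.Agent.Helper36.PT

open Pool.Agent.Helper68.SP

theorem does_loopF {p : P} {w : List Bool} (Y : ℕ → List Bool) (c : ℕ)
    (h : ∀ i < w.length, Does p (Y i) c (Y (i + 1))) :
    Does (loopF p) (fr w ++ Y 0) (8 * w.length + 10 + w.length * (c + 3)) (Y w.length) := by
  intro i r o
  have h1 := exec_mvF .x .r (by decide) w (st i (fr w ++ Y 0) r [] [] o) (Y 0) rfl
  simp only [upd_x, upd_r, st_r] at h1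
  have key : ∀ (l : List Bool) (j : ℕ), j + l.length = w.length →
      ExecLe (.whl .r isT (.seq (.pop .r) (.seq (.pop .r) p)))
        (st i (Y j) (fr l ++ r) [] [] o) (l.length * (c + 3) + 1)
        (st i (Y w.length) (fr [] ++ r) [] [] o) := by
    intro l
    induction l with
    | nil =>
      intro j hj
      have : j = w.length := by simpa using hj
      subst this
      exact (ExecLe.whl_done rfl).mono (by simp)
    | cons b l ih =>
      intro j hj
      rw [List.length_cons] at hj
      have h2 := ExecLe.pop .r (st i (Y j) (fr (b :: l) ++ r) [] [] o)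
      simp only [upd_r, st_r] at h2
      have h3 := ExecLe.pop .r (st i (Y j) ((fr (b :: l) ++ r).tail) [] [] o)
      simp only [upd_r, st_r] at h3
      have h4 : ExecLe p (st i (Y j) ((fr (b :: l) ++ r).tail.tail) [] [] o) c
          (st i (Y (j + 1)) (fr l ++ r) [] [] o) := h j (by omega) i _ o
      refine (ExecLe.whl_step rfl (h2.seq (h3.seq h4)) (ih (j + 1) (by omega))).mono ?_
      rw [List.length_cons, Nat.succ_mul]
      omega
  have h2 := key w.reverse 0 (by simp)
  have h3 := ExecLe.pop .r (st i (Y w.length) (fr [] ++ r) [] [] o)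
  simp only [upd_r, st_r] at h3
  refine (h1.seq (h2.seq h3)).mono ?_
  rw [List.length_reverse]
  omega

theorem exec_inF (w r o : List Bool) :
    ExecLe inF (st w [] r [] [] o) (20 * w.length + 10) (st [] (fr w) r [] [] o) := by
  have h0 := ExecLe.push .a false (st w [] r [] [] o)
  simp only [upd_a, st_a] at h0
  have key : ∀ (w l : List Bool),
      ExecLe (.whl .inp isS (.seq (mvBit .inp .a) (.push .a true)))
        (st w [] r (fr l) [] o) (5 * w.length + 1)
        (st [] [] r (fr (w.reverse ++ l)) [] o) := by
    intro w
    induction w with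
    | nil =>
      intro l
      exact (ExecLe.whl_done rfl).mono (by simp)
    | cons b w ih =>
      intro l
      have h1 := exec_mvBit .inp .a (by decide) (st (b :: w) [] r (fr l) [] o) b w rfl
      simp only [upd_inp, upd_a, st_a] at h1
      have h2 := ExecLe.push .a true (st w [] r (b :: fr l) [] o)
      simp only [upd_a, st_a] at h2
      have h3 := ih (b :: l)
      have h4 := (ExecLe.whl_step rfl (h1.seq h2) h3).mono
        (m := 5 * (b :: w).length + 1) (by rw [List.length_cons]; omega)
      rw [List.reverse_cons, List.append_assoc]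
      exact h4
  have h1 := key w []
  rw [List.append_nil] at h1
  have h2 := exec_mvF .a .x (by decide) w.reverse (st [] [] r (fr w.reverse) [] o) []
    (by simp only [st_a, List.append_nil])
  simp only [upd_a, upd_x, st_x, List.reverse_reverse, List.append_nil] at h2
  refine (h0.seq (h1.seq h2)).mono ?_
  rw [List.length_reverse]
  omega

theorem exec_outF (w i r : List Bool) :
    ExecLe outF (st i (fr w) r [] [] []) (20 * w.length + 10) (st i [] r [] [] w) := by
  have h0 := exec_mvF .x .a (by decide) w (st i (fr w) r [] [] []) []
    (by simp only [st_x, List.append_nil])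
  simp only [upd_a, upd_x, st_a, List.append_nil] at h0
  have key : ∀ (w l : List Bool),
      ExecLe (.whl .a isT (.seq (.pop .a) (mvBit .a .out)))
        (st i [] r (fr w) [] l) (5 * w.length + 1)
        (st i [] r (fr []) [] (w.reverse ++ l)) := by
    intro w
    induction w with
    | nil =>
      intro l
      exact (ExecLe.whl_done rfl).mono (by simp)
    | cons b w ih =>
      intro l
      have h1 := ExecLe.pop .a (st i [] r (fr (b :: w)) [] l)
      simp only [upd_a, st_a] at h1
      have h2 := exec_mvBit .a .out (by decide)
        (st i [] r ((fr (b :: w)).tail) [] l) b (fr w) rfl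
      simp only [upd_a, upd_out, st_out] at h2
      have h3 := ih (b :: l)
      have h4 := (ExecLe.whl_step rfl (h1.seq h2) h3).mono
        (m := 5 * (b :: w).length + 1) (by rw [List.length_cons]; omega)
      rw [List.reverse_cons, List.append_assoc]
      exact h4
  have h1 := key w.reverse []
  rw [List.append_nil, List.reverse_reverse] at h1
  have h2 := ExecLe.pop .a (st i [] r (fr []) [] w)
  simp only [upd_a, st_a] at h2
  refine (h0.seq (h1.seq h2)).mono ?_
  rw [List.length_reverse]
  omega

/-- A program on the working stack gives a polynomial time Turing machine. -/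
theorem polytime_TM {α β : Type} (ea : α → List Bool) (eb : β → List Bool) (f : α → β)
    (h : ∃ (p : P) (d : ℕ), ∀ a : α, Does p (fr (ea a)) (((ea a).length + 2) ^ d)
      (fr (eb (f a)))) :
    Nonempty (Turing.TM2ComputableInPolyTime ea eb f) := by
  obtain ⟨p, d, hp⟩ := h
  refine polytime_of_exec Stk.inp Stk.out (.seq inF (.seq p outF)) ea eb f
    (100 * Polynomial.X + 100 + 100 * (Polynomial.X + 2) ^ d) ?_
  intro a
  have h1 := exec_inF (ea a) [] []
  have h2 := hp a [] [] []
  have h3 := exec_outF (eb (f a)) [] []
  have hl := (hp a).len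
  rw [length_fr, length_fr] at hl
  obtain ⟨n, hn, hx⟩ := h1.seq (h2.seq h3)
  have e1 : (Function.update (fun _ => []) Stk.inp (ea a) : St) = st (ea a) [] [] [] [] [] := by
    funext k
    cases k <;> rfl
  have e2 : (Function.update (fun _ => []) Stk.out (eb (f a)) : St) =
      st [] [] [] [] [] (eb (f a)) := by
    funext k
    cases k <;> rfl
  refine ⟨n, ?_, ?_⟩
  · simp only [Polynomial.eval_add, Polynomial.eval_mul, Polynomial.eval_pow, Polynomial.eval_X,
      Polynomial.eval_ofNat]
    generalize ((ea a).length + 2) ^ d = t at *
    omega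
  · have := hx
    rw [e1, e2]
    exact this

theorem PolyTime.toTM {α β : Type} [Enc α] [Enc β] {f : α → β} (hf : PolyTime f) :
    Nonempty (Turing.TM2ComputableInPolyTime (enc : α → List Bool) (enc : β → List Bool) f) := by
  obtain ⟨p, d, h⟩ := hf
  refine polytime_TM _ _ f ⟨p, d, fun a => ?_⟩
  have := h a []
  rw [List.append_nil, List.append_nil] at this
  exact this

/-- the encodings may be restricted to a subset given by an arbitrary encoded type -/
theorem PolyTime.toTM' {α β : Type} (ea : α → List Bool) (eb : β → List Bool) (f : α → β)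
    (F : Word → Word) (hF : PolyTime F) (h : ∀ a, F ⟨ea a⟩ = ⟨eb (f a)⟩) :
    Nonempty (Turing.TM2ComputableInPolyTime ea eb f) := by
  obtain ⟨p, d, hp⟩ := hF
  refine polytime_TM _ _ f ⟨p, d, fun a => ?_⟩
  have := hp ⟨ea a⟩ []
  rw [List.append_nil, List.append_nil, h a] at this
  exact this

end Pool.Agent.Helper36.PT
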