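import Pool.Agent.Helper68.PT.A2
import Pool.Agent.Helper50.PT.Bounds

/-!
# Polynomial time functions: basic closure properties
-/

set_option autoImplicit false

namespace Pool.Agent.Helper36.PT

open Pool.Agent.Helper68.SP

variable {α β γ : Type} [Enc α] [Enc β] [Enc γ]

/-- It is enough to find a program with a polynomially bounded number of steps. -/
theorem PolyTime.mk {f : α → β} (p : P) (t : α → ℕ) (ht : Bdd t)
    (h : ∀ (a : α) (X : List Bool), Does p (fr (enc a) ++ X) (t a) (fr (enc (f a)) ++ X)) :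
    PolyTime f := by
  obtain ⟨d, hd⟩ := ht
  exact ⟨p, d, fun a X => (h a X).mono (hd a)⟩

/-- The program and a polynomially bounded number of steps. -/
theorem PolyTime.out {f : α → β} (hf : PolyTime f) : ∃ (p : P) (t : α → ℕ), Bdd t ∧
    ∀ (a : α) (X : List Bool), Does p (fr (enc a) ++ X) (t a) (fr (enc (f a)) ++ X) := by
  obtain ⟨p, d, h⟩ := hf
  exact ⟨p, fun a => (esz a + 2) ^ d, ⟨d, fun a => le_rfl⟩, h⟩

theorem PolyTime.congr {f g : α → β} (hf : PolyTime f) (h : ∀ a, f a = g a) : PolyTime g := by
  have e : f = g := funext h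
  exact e ▸ hf

/-- functions which do not change the encoding -/
theorem PolyTime.of_enc {f : α → β} (h : ∀ a, enc (f a) = enc a) : PolyTime f := by
  refine PolyTime.mk .skip (fun _ => 1) (Bdd.const 1) ?_
  intro a X i r o
  rw [h a]
  exact ExecLe.skip _

theorem PolyTime.id : PolyTime (fun a : α => a) := PolyTime.of_enc fun _ => rfl

theorem PolyTime.comp {g : β → γ} {f : α → β} (hg : PolyTime g) (hf : PolyTime f) :
    PolyTime (fun a => g (f a)) := by
  obtain ⟨q, s, hs, h2⟩ := hg.out
  obtain ⟨p, t, ht, h1⟩ := hf.out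
  exact PolyTime.mk (.seq p q) (fun a => t a + s (f a)) (ht.add (hs.comp hf.bdd))
    fun a X => (h1 a X).seq (h2 (f a) X)

theorem PolyTime.const (b : β) : PolyTime (fun _ : α => b) := by
  refine PolyTime.mk (.seq dropF (constF (enc b)))
    (fun a => (4 * esz a + 4) + (2 * (enc b).length + 1)) ?_ ?_
  · exact ((((Bdd.const 4).mul Bdd.size).add (Bdd.const 4)).add (Bdd.const _))
  · intro a X
    exact does_dropF.seq does_constF

theorem PolyTime.fst : PolyTime (fun p : α × β => p.1) := by
  refine PolyTime.mk (.seq unpairF (underF dropF))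
    (fun p => (20 * esz p.1 + 10) + ((4 * esz p.2 + 4) + 20 * esz p.1 + 10)) ?_ ?_
  · have h1 : Bdd (fun p : α × β => 100 * esz p + 100) :=
      ((Bdd.const 100).mul Bdd.size).add (Bdd.const 100)
    refine h1.mono ?_
    intro p
    obtain ⟨a, b⟩ := p
    rw [esz_pair]
    dsimp only
    omega
  · intro p X
    exact does_unpairF.seq (does_underF does_dropF)

theorem PolyTime.snd : PolyTime (fun p : α × β => p.2) := by
  refine PolyTime.mk (.seq unpairF dropF)
    (fun p => (20 * esz p.1 + 10) + (4 * esz p.1 + 4)) ?_ ?_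
  · have h1 : Bdd (fun p : α × β => 100 * esz p + 100) :=
      ((Bdd.const 100).mul Bdd.size).add (Bdd.const 100)
    refine h1.mono ?_
    intro p
    obtain ⟨a, b⟩ := p
    rw [esz_pair]
    dsimp only
    omega
  · intro p X
    exact does_unpairF.seq does_dropF

theorem PolyTime.pair {f : α → β} {g : α → γ} (hf : PolyTime f) (hg : PolyTime g) :
    PolyTime (fun a => (f a, g a)) := by
  obtain ⟨p, t, ht, h1⟩ := hf.out
  obtain ⟨q, s, hs, h2⟩ := hg.out
  refine PolyTime.mk (.seq dupF (.seq p (.seq (underF q) pairF)))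
    (fun a => (40 * esz a + 40) + (t a + ((s a + 20 * esz (f a) + 10) +
      (20 * esz (f a) + 10)))) ?_ ?_
  · have hb := hf.bdd
    exact (((Bdd.const 40).mul Bdd.size).add (Bdd.const 40)).add
      (ht.add (((hs.add ((Bdd.const 20).mul hb)).add (Bdd.const 10)).add
        (((Bdd.const 20).mul hb).add (Bdd.const 10))))
  · intro a X
    exact does_dupF.seq ((h1 a _).seq ((does_underF (h2 a X)).seq does_pairF))

theorem PolyTime.size : PolyTime (fun a : α => esz a) := by
  refine PolyTime.mk sizeF (fun a => 20 * esz a + 10) ?_ ?_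
  · exact ((Bdd.const 20).mul Bdd.size).add (Bdd.const 10)
  · intro a X
    exact does_sizeF

/-- conditional -/
theorem PolyTime.cond {c : α → Bool} {f g : α → β} (hc : PolyTime c) (hf : PolyTime f)
    (hg : PolyTime g) : PolyTime (fun a => if c a = true then f a else g a) := by
  obtain ⟨pc, tc, htc, h0⟩ := hc.out
  obtain ⟨p, t, ht, h1⟩ := hf.out
  obtain ⟨q, s, hs, h2⟩ := hg.out
  refine PolyTime.mk (.seq dupF (.seq pc (caseF .skip (.seq dropF q) (.seq dropF p))))
    (fun a => (40 * esz a + 40) + (tc a + ((4 + t a + s a) + 4))) ?_ ?_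
  · exact (((Bdd.const 40).mul Bdd.size).add (Bdd.const 40)).add
      (htc.add ((((Bdd.const 4).add ht).add hs).add (Bdd.const 4)))
  · intro a X
    refine does_dupF.seq ((h0 a _).seq ?_)
    have hd : Does dropF (fr [] ++ (fr (enc a) ++ X)) 4 (fr (enc a) ++ X) := does_dropF
    cases hca : c a
    · rw [if_neg (by decide)]
      refine (does_caseF_false (w := []) (hd.seq (h2 a X))).mono ?_
      omega
    · rw [if_pos rfl]
      refine (does_caseF_true (w := []) (hd.seq (h1 a X))).mono ?_
      omega

end Pool.Agent.Helper36.PT
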