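import Pool.Agent.Helper68.PT.Ext

/-!
# Polynomial time functions: equality, quantifiers over lists, more functions on lists
-/

set_option autoImplicit false

namespace Pool.Agent.Helper36.PT

variable {α β γ σ : Type} [Enc α] [Enc β] [Enc γ] [Enc σ]

/-! ### Injective encodings and equality -/

/-- Types with an injective encoding. -/
class InjEnc (α : Type) [Enc α] : Prop where
  /-- the encoding is injective -/
  inj : Function.Injective (enc : α → List Bool)

theorem fr_append_inj : ∀ {u u' v v' : List Bool}, fr u ++ v = fr u' ++ v' → u = u' ∧ v = v' := by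
  intro u
  induction u with
  | nil =>
    intro u' v v' h
    cases u' with
    | nil => exact ⟨rfl, by simpa [fr] using h⟩
    | cons c u' => simp [fr] at h
  | cons c u ih =>
    intro u' v v' h
    cases u' with
    | nil => simp [fr] at h
    | cons c' u' =>
      simp only [fr, List.cons_append, List.cons.injEq, true_and] at h
      obtain ⟨h1, h2⟩ := h
      obtain ⟨h3, h4⟩ := ih h2
      exact ⟨by rw [h1, h3], h4⟩

instance : InjEnc Bool := ⟨fun a b h => by
  change [a] = [b] at h
  simpa using h⟩

instance : InjEnc ℕ := ⟨fun a b h => by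
  have h1 : (List.replicate a true).length = (List.replicate b true).length :=
    congrArg List.length h
  simpa using h1⟩

instance : InjEnc Word := ⟨fun a b h => by
  cases a
  cases b
  exact congrArg Word.mk h⟩

instance : InjEnc Unit := ⟨fun _ _ _ => rfl⟩

instance {n : ℕ} : InjEnc (Fin n) := ⟨fun _ _ h => Fin.ext (InjEnc.inj (α := ℕ) h)⟩

instance [InjEnc α] [InjEnc β] : InjEnc (α × β) := ⟨fun p q h => by
  obtain ⟨h1, h2⟩ := fr_append_inj h
  exact Prod.ext (InjEnc.inj h1) (InjEnc.inj h2)⟩

instance [InjEnc α] : InjEnc (List α) := ⟨by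
  have key : ∀ l l' : List α, encL l = encL l' → l = l' := by
    intro l
    induction l with
    | nil =>
      intro l' h
      cases l' with
      | nil => rfl
      | cons a l' =>
        exfalso
        cases hw : enc a with
        | nil => simp [encL, hw, fr] at h
        | cons c w => simp [encL, hw, fr] at h
    | cons a l ih =>
      intro l' h
      cases l' with
      | nil =>
        exfalso
        cases hw : enc a with
        | nil => simp [encL, hw, fr] at h
        | cons c w => simp [encL, hw, fr] at h
      | cons a' l' =>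
        obtain ⟨h1, h2⟩ := fr_append_inj h
        rw [InjEnc.inj h1, ih l' h2]
  exact fun l l' h => key l l' h⟩

instance [InjEnc α] : InjEnc (Option α) := ⟨fun p q h => by
  cases p with
  | none =>
    cases q with
    | none => rfl
    | some b => exact absurd h (by simp [enc])
  | some a =>
    cases q with
    | none => exact absurd h (by simp [enc])
    | some b =>
      have h1 : (true :: enc a) = true :: enc b := h
      rw [InjEnc.inj (List.cons.inj h1).2]⟩

instance [InjEnc α] [InjEnc β] : InjEnc (α ⊕ β) := ⟨fun p q h => by
  cases p with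
  | inl a =>
    cases q with
    | inl b =>
      have h1 : (true :: enc a) = true :: enc b := h
      rw [InjEnc.inj (List.cons.inj h1).2]
    | inr b =>
      have h1 : (true :: enc a) = false :: enc b := h
      exact absurd (List.cons.inj h1).1 (by decide)
  | inr a =>
    cases q with
    | inl b =>
      have h1 : (false :: enc a) = true :: enc b := h
      exact absurd (List.cons.inj h1).1 (by decide)
    | inr b =>
      have h1 : (false :: enc a) = false :: enc b := h
      rw [InjEnc.inj (List.cons.inj h1).2]⟩

/-- The encoding itself is computable. -/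
@[fun_prop]
theorem PolyTime.toWord {f : α → β} (hf : PolyTime f) :
    PolyTime (fun a => Word.mk (enc (f a))) :=
  (PolyTime.of_enc (f := fun b : β => Word.mk (enc b)) fun _ => rfl).comp hf

theorem list_bool_eq_iff (l l' : List Bool) : l = l' ↔ l.length = l'.length ∧
    ∀ i < l.length, (l.getD i false = true ↔ l'.getD i false = true) := by
  constructor
  · rintro rfl
    exact ⟨rfl, fun _ _ => Iff.rfl⟩
  · rintro ⟨h1, h2⟩
    refine List.ext_getElem h1 fun i hi hi' => ?_
    have h3 := h2 i hi
    rw [List.getD_eq_getElem _ _ hi, List.getD_eq_getElem _ _ hi'] at h3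
    exact Bool.eq_iff_iff.2 h3

instance : InjEnc Prop := ⟨fun p q h => by
  have h1 : PT.dec p = PT.dec q := (List.cons.inj h).1
  exact propext ((dec_eq_true p).symm.trans ((Bool.eq_iff_iff.1 h1).trans (dec_eq_true q)))⟩

@[fun_prop]
theorem PolyTime.pBool {f : α → Bool} (hf : PolyTime f) : PolyTime (fun a => f a = true) :=
  (PolyPred.bool hf).toProp

/-- Equality of words. -/
theorem PolyTime.pEqList {f g : α → List Bool} (hf : PolyTime f) (hg : PolyTime g) :
    PolyTime (fun a => f a = g a) := by
  have h0 : PolyTime (fun a => (f a).length = (g a).length) :=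
    (PolyPred.eq (PolyTime.length hf) (PolyTime.length hg)).toProp
  have h : PolyTime (fun a => (f a).length = (g a).length ∧ ∀ i < (f a).length,
      ((f a).getD i false = true ↔ (g a).getD i false = true)) := by fun_prop
  exact h.congr fun a => propext (list_bool_eq_iff _ _).symm

/-- Equality in types with an injective encoding. -/
@[fun_prop]
theorem PolyTime.pEq [InjEnc β] {f g : α → β} (hf : PolyTime f) (hg : PolyTime g) :
    PolyTime (fun a => f a = g a) := by
  have h : PolyTime (fun a => (Word.mk (enc (f a))).w = (Word.mk (enc (g a))).w) :=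
    PolyTime.pEqList (PolyTime.wordToList.comp (PolyTime.toWord hf))
      (PolyTime.wordToList.comp (PolyTime.toWord hg))
  refine h.congr fun a => ?_
  exact propext ⟨fun e => InjEnc.inj e, fun e => congrArg enc e⟩

@[fun_prop]
theorem PolyTime.pNe [InjEnc β] {f g : α → β} (hf : PolyTime f) (hg : PolyTime g) :
    PolyTime (fun a => f a ≠ g a) := (PolyTime.pEq hf hg).pNot

example {f g : α → List (ℕ × Bool)} (hf : PolyTime f) (hg : PolyTime g) :
    PolyTime (fun a => f a = g a ∧ (f a).length < 5) := by fun_prop

/-! ### Options -/

@[fun_prop]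
theorem PolyTime.getOpt {f : α → Option β} {g : α → β} (hf : PolyTime f) (hg : PolyTime g) :
    PolyTime (fun a => (f a).getD (g a)) := by
  refine (PolyTime.optCases hf hg (g := fun _ b => b) (by fun_prop)).congr fun a => ?_
  cases f a <;> rfl

@[fun_prop]
theorem PolyTime.isSome {f : α → Option β} (hf : PolyTime f) :
    PolyTime (fun a => (f a).isSome) := by
  refine (PolyTime.optCases hf (PolyTime.const false) (g := fun _ _ => true)
    (by fun_prop)).congr fun a => ?_
  cases f a <;> rfl

@[fun_prop]
theorem PolyTime.optMap {f : α → Option β} {g : α → β → γ} (hf : PolyTime f)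
    (hg : PolyTime (fun p : α × β => g p.1 p.2)) :
    PolyTime (fun a => (f a).map (g a)) := by
  refine (PolyTime.optCases hf (PolyTime.const (none : Option γ))
    (g := fun a b => Option.some (g a b)) ?_).congr fun a => ?_
  · have h := @PolyTime.unc1 _ _ _ _ _ _ _ hg
    fun_prop
  · cases f a <;> rfl

@[fun_prop]
theorem PolyTime.optBind {f : α → Option β} {g : α → β → Option γ} (hf : PolyTime f)
    (hg : PolyTime (fun p : α × β => g p.1 p.2)) :
    PolyTime (fun a => (f a).bind (g a)) := by
  refine (PolyTime.optCases hf (PolyTime.const (none : Option γ)) (g := g) hg).congr fun a => ?_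
  cases f a <;> rfl

/-! ### Lists -/

@[fun_prop]
theorem PolyTime.headOpt {f : α → List β} (hf : PolyTime f) : PolyTime (fun a => (f a).head?) := by
  classical
  by_cases hβ : Nonempty β
  · obtain ⟨d⟩ := hβ
    have h : PolyTime (fun a => bif (f a).isEmpty then none else Option.some ((f a).headD d)) := by
      fun_prop
    refine h.congr fun a => ?_
    cases f a <;> rfl
  · refine (PolyTime.const (none : Option β)).congr fun a => ?_
    cases hfa : f a with
    | nil => rfl
    | cons b l => exact absurd ⟨b⟩ hβ

@[fun_prop]
theorem PolyTime.getElemOpt {f : α → List β} {i : α → ℕ} (hf : PolyTime f) (hi : PolyTime i) :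
    PolyTime (fun a => (f a)[i a]?) := by
  have h : PolyTime (fun a => ((f a).drop (i a)).head?) := by fun_prop
  refine h.congr fun a => ?_
  rw [List.head?_drop]

@[fun_prop]
theorem PolyTime.singleton {f : α → β} (hf : PolyTime f) : PolyTime (fun a => [f a]) := by
  fun_prop

@[fun_prop]
theorem PolyTime.flatMap {l : α → List β} {f : α → β → List γ} (hl : PolyTime l)
    (hf : PolyTime (fun p : α × β => f p.1 p.2)) : PolyTime (fun a => (l a).flatMap (f a)) := by
  have h : PolyTime (fun a => ((l a).map (f a)).flatten) := by fun_prop
  refine h.congr fun a => ?_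
  rw [List.flatMap_def]

@[fun_prop]
theorem PolyTime.listSum {l : α → List ℕ} (hl : PolyTime l) : PolyTime (fun a => (l a).sum) := by
  have h : PolyTime (fun a => ∑ i ∈ Finset.range (l a).length, (l a).getD i 0) := by fun_prop
  refine h.congr fun a => ?_
  have key : ∀ l : List ℕ, ∑ i ∈ Finset.range l.length, l.getD i 0 = l.sum := by
    intro l
    induction l with
    | nil => rfl
    | cons b l ih =>
      rw [List.length_cons, Finset.sum_range_succ', List.sum_cons, ← ih, Nat.add_comm]
      rfl
  exact key (l a)

/-- Quantification over the elements of a list. -/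
@[fun_prop]
theorem PolyTime.pAllMem {l : α → List β} {Q : α → β → Prop} (hl : PolyTime l)
    (hQ : PolyTime (fun p : α × β => Q p.1 p.2)) : PolyTime (fun a => ∀ x ∈ l a, Q a x) := by
  have h1 : PolyTime (fun p : α × β => !(PT.dec (Q p.1 p.2))) := by fun_prop
  have h : PolyTime (fun a => ((l a).filter (fun x => !(PT.dec (Q a x)))).isEmpty = true) := by
    fun_prop
  refine h.congr fun a => propext ?_
  rw [List.isEmpty_iff, List.filter_eq_nil_iff]
  refine forall₂_congr fun x _ => ?_
  rw [Bool.not_eq_true, Bool.not_eq_false', dec_eq_true]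

@[fun_prop]
theorem PolyTime.pExMem {l : α → List β} {Q : α → β → Prop} (hl : PolyTime l)
    (hQ : PolyTime (fun p : α × β => Q p.1 p.2)) : PolyTime (fun a => ∃ x ∈ l a, Q a x) := by
  have h : PolyTime (fun a => ¬ ∀ x ∈ l a, ¬ Q a x) := by fun_prop
  refine h.congr fun a => propext ?_
  push Not
  rfl

@[fun_prop]
theorem PolyTime.pMem [InjEnc β] {l : α → List β} {f : α → β} (hl : PolyTime l)
    (hf : PolyTime f) : PolyTime (fun a => f a ∈ l a) := by
  have h : PolyTime (fun a => ∃ x ∈ l a, f a = x) := by fun_prop
  refine h.congr fun a => propext ?_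
  simp

@[fun_prop]
theorem PolyTime.all {l : α → List β} {c : α → β → Bool} (hl : PolyTime l)
    (hc : PolyTime (fun p : α × β => c p.1 p.2)) : PolyTime (fun a => (l a).all (c a)) := by
  have h : PolyTime (fun a => PT.dec (∀ x ∈ l a, c a x = true)) := by fun_prop
  refine h.congr fun a => ?_
  rw [Bool.eq_iff_iff, dec_eq_true, List.all_eq_true]

@[fun_prop]
theorem PolyTime.any {l : α → List β} {c : α → β → Bool} (hl : PolyTime l)
    (hc : PolyTime (fun p : α × β => c p.1 p.2)) : PolyTime (fun a => (l a).any (c a)) := by
  have h : PolyTime (fun a => PT.dec (∃ x ∈ l a, c a x = true)) := by fun_prop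
  refine h.congr fun a => ?_
  rw [Bool.eq_iff_iff, dec_eq_true, List.any_eq_true]

@[fun_prop]
theorem PolyTime.find {l : α → List β} {c : α → β → Bool} (hl : PolyTime l)
    (hc : PolyTime (fun p : α × β => c p.1 p.2)) : PolyTime (fun a => (l a).find? (c a)) := by
  have h : PolyTime (fun a => ((l a).filter (c a)).head?) := by fun_prop
  refine h.congr fun a => ?_
  rw [List.head?_filter]

@[fun_prop]
theorem PolyTime.zip {l : α → List β} {l' : α → List γ} (hl : PolyTime l) (hl' : PolyTime l') :
    PolyTime (fun a => (l a).zip (l' a)) := by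
  classical
  by_cases hβ : Nonempty β
  · by_cases hγ : Nonempty γ
    · obtain ⟨d⟩ := hβ
      obtain ⟨e⟩ := hγ
      have h : PolyTime (fun a => (List.range (Min.min (l a).length (l' a).length)).map
          (fun i => ((l a).getD i d, (l' a).getD i e))) := by fun_prop
      refine h.congr fun a => ?_
      refine List.ext_getElem (by simp) fun i hi hi' => ?_
      simp only [List.length_map, List.length_range] at hi
      simp only [List.getElem_map, List.getElem_range, List.getElem_zip]
      rw [List.getD_eq_getElem _ _ (lt_of_lt_of_le hi (min_le_left _ _)),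
        List.getD_eq_getElem _ _ (lt_of_lt_of_le hi (min_le_right _ _))]
    · refine (PolyTime.const ([] : List (β × γ))).congr fun a => ?_
      cases hfa : l' a with
      | nil => simp
      | cons b l => exact absurd ⟨b⟩ hγ
  · refine (PolyTime.const ([] : List (β × γ))).congr fun a => ?_
    cases hfa : l a with
    | nil => simp
    | cons b l => exact absurd ⟨b⟩ hβ

@[fun_prop]
theorem PolyTime.zipWith {ε : Type} [Enc ε] {l : α → List β} {l' : α → List γ}
    {f : α → β → γ → ε} (hl : PolyTime l) (hl' : PolyTime l')
    (hf : PolyTime (fun q : (α × β) × γ => f q.1.1 q.1.2 q.2)) :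
    PolyTime (fun a => List.zipWith (f a) (l a) (l' a)) := by
  have h1 := @PolyTime.unc2 _ _ _ _ _ _ _ _ _ hf
  have h : PolyTime (fun a => ((l a).zip (l' a)).map (fun p => f a p.1 p.2)) := by fun_prop
  refine h.congr fun a => ?_
  rw [List.zip, List.map_zipWith]

end Pool.Agent.Helper36.PT
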