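import Pool.Agent.Helper14.PT.C
import Pool.Agent.Helper14.PT.E4
import Pool.Agent.Helper31.PT.F2
import Pool.Agent.Helper68.PT.A3

/-!
# Polynomial time functions: the core library with `fun_prop`

`PolyTime f` is proved by `fun_prop` whenever `f` is composed from the functions of the library.
This includes predicates, as functions with values in `Prop`; `PolyPred Q` is converted by
`PolyTime.toPred` and `PolyPred.toProp`. A local function (or predicate) of several variables is
made available to `fun_prop` by `have h := @PolyTime.unc1 _ _ _ _ _ _ _ hf` (or `unc2`).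
-/

set_option autoImplicit false

namespace Pool.Agent.Helper36.PT

variable {α β γ σ : Type} [Enc α] [Enc β] [Enc γ] [Enc σ]

/-- Use of a function of two variables. -/
theorem PolyTime.unc1 {f : α → β → γ} (hf : PolyTime (fun q : α × β => f q.1 q.2))
    {δ : Type} [Enc δ] {i : δ → α} {j : δ → β} (hi : PolyTime i) (hj : PolyTime j) :
    PolyTime (fun c => f (i c) (j c)) := hf.comp (hi.pair hj)

/-- Use of a function of three variables. -/
theorem PolyTime.unc2 {ε : Type} [Enc ε] {f : α → β → γ → ε}
    (hf : PolyTime (fun q : (α × β) × γ => f q.1.1 q.1.2 q.2)) {δ : Type} [Enc δ] {i : δ → α}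
    {j : δ → β} {k : δ → γ} (hi : PolyTime i) (hj : PolyTime j) (hk : PolyTime k) :
    PolyTime (fun c => f (i c) (j c) (k c)) := hf.comp ((hi.pair hj).pair hk)

/-! ### Predicates as functions with values in `Prop` -/

/-- Propositions are encoded by their truth value. -/
noncomputable instance instEncProp : Enc Prop := ⟨fun q => [PT.dec q]⟩

theorem esz_prop (q : Prop) : esz q = 1 := rfl

/-- A predicate is decidable in polynomial time if and only if it is computable in polynomial
time as a function into `Prop`. -/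
theorem polyPred_iff {Q : α → Prop} : PolyPred Q ↔ PolyTime Q := by
  constructor
  · rintro ⟨f, hf, h⟩
    obtain ⟨p, d, hp⟩ := hf
    refine ⟨p, d, fun a X => ?_⟩
    have e : enc (Q a) = enc (f a) := by
      change [PT.dec (Q a)] = [f a]
      rw [Bool.eq_iff_iff.2 ((dec_eq_true (Q a)).trans (h a).symm)]
    rw [e]
    exact hp a X
  · rintro ⟨p, d, hp⟩
    exact ⟨fun a => PT.dec (Q a), ⟨p, d, hp⟩, fun a => dec_eq_true _⟩

theorem PolyPred.toProp {Q : α → Prop} (h : PolyPred Q) : PolyTime Q := polyPred_iff.1 h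

theorem PolyTime.toPred {Q : α → Prop} (h : PolyTime Q) : PolyPred Q := polyPred_iff.2 h

attribute [fun_prop] PolyTime PolyPred

attribute [fun_prop] PolyTime.id PolyTime.const PolyTime.fst PolyTime.snd PolyTime.pair
  PolyTime.comp PolyTime.add PolyTime.sub PolyTime.mul PolyTime.sum PolyTime.max PolyTime.min
  PolyTime.pow PolyTime.div PolyTime.mod PolyTime.encodeNat PolyTime.length
  PolyTime.reverse PolyTime.append PolyTime.drop PolyTime.take PolyTime.getD PolyTime.ofFn
  PolyTime.map PolyTime.set PolyTime.flatten PolyTime.filter PolyTime.halve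

attribute [fun_prop] PolyPred.and PolyPred.or PolyPred.not PolyPred.const PolyPred.lt PolyPred.le
  PolyPred.eq PolyPred.iff PolyPred.imp PolyPred.exLt PolyPred.allLt PolyPred.bool PolyPred.dvd
  PolyPred.prime

@[fun_prop]
theorem PolyTime.pAnd {Q R : α → Prop} (hQ : PolyTime Q) (hR : PolyTime R) :
    PolyTime (fun a => Q a ∧ R a) := (hQ.toPred.and hR.toPred).toProp

@[fun_prop]
theorem PolyTime.pOr {Q R : α → Prop} (hQ : PolyTime Q) (hR : PolyTime R) :
    PolyTime (fun a => Q a ∨ R a) := (hQ.toPred.or hR.toPred).toProp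

@[fun_prop]
theorem PolyTime.pNot {Q : α → Prop} (hQ : PolyTime Q) : PolyTime (fun a => ¬ Q a) :=
  hQ.toPred.not.toProp

@[fun_prop]
theorem PolyTime.pImp {Q R : α → Prop} (hQ : PolyTime Q) (hR : PolyTime R) :
    PolyTime (fun a => Q a → R a) := (hQ.toPred.imp hR.toPred).toProp

@[fun_prop]
theorem PolyTime.pIff {Q R : α → Prop} (hQ : PolyTime Q) (hR : PolyTime R) :
    PolyTime (fun a => (Q a ↔ R a)) := (hQ.toPred.iff hR.toPred).toProp

@[fun_prop]
theorem PolyTime.pLt {f g : α → ℕ} (hf : PolyTime f) (hg : PolyTime g) :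
    PolyTime (fun a => f a < g a) := (PolyPred.lt hf hg).toProp

@[fun_prop]
theorem PolyTime.pLe {f g : α → ℕ} (hf : PolyTime f) (hg : PolyTime g) :
    PolyTime (fun a => f a ≤ g a) := (PolyPred.le hf hg).toProp

@[fun_prop]
theorem PolyTime.pDvd {f g : α → ℕ} (hf : PolyTime f) (hg : PolyTime g) :
    PolyTime (fun a => f a ∣ g a) := (PolyPred.dvd hf hg).toProp

@[fun_prop]
theorem PolyTime.pPrime {f : α → ℕ} (hf : PolyTime f) : PolyTime (fun a => Nat.Prime (f a)) :=
  (PolyPred.prime hf).toProp

@[fun_prop]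
theorem PolyTime.pExLt {n : α → ℕ} {Q : α → ℕ → Prop} (hn : PolyTime n)
    (hQ : PolyTime (fun p : α × ℕ => Q p.1 p.2)) : PolyTime (fun a => ∃ i < n a, Q a i) :=
  (PolyPred.exLt hn hQ.toPred).toProp

@[fun_prop]
theorem PolyTime.pAllLt {n : α → ℕ} {Q : α → ℕ → Prop} (hn : PolyTime n)
    (hQ : PolyTime (fun p : α × ℕ => Q p.1 p.2)) : PolyTime (fun a => ∀ i < n a, Q a i) :=
  (PolyPred.allLt hn hQ.toPred).toProp

@[fun_prop]
theorem PolyTime.mu' {n : α → ℕ} {Q : α → ℕ → Prop} (hn : PolyTime n)
    (hQ : PolyTime (fun p : α × ℕ => Q p.1 p.2)) : PolyTime (fun a => PT.mu (n a) (Q a)) :=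
  PolyTime.mu hn hQ.toPred

@[fun_prop]
theorem PolyTime.count' {n : α → ℕ} {Q : α → ℕ → Prop} [∀ a, DecidablePred (Q a)]
    (hn : PolyTime n) (hQ : PolyTime (fun p : α × ℕ => Q p.1 p.2)) :
    PolyTime (fun a => ((Finset.range (n a)).filter (Q a)).card) :=
  PolyTime.count hn hQ.toPred

@[fun_prop]
theorem PolyTime.ite' {Q : α → Prop} [∀ a, Decidable (Q a)] {f g : α → β} (hQ : PolyTime Q)
    (hf : PolyTime f) (hg : PolyTime g) : PolyTime (fun a => if Q a then f a else g a) :=
  PolyTime.ite hQ.toPred hf hg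

@[fun_prop]
theorem PolyTime.ind' {Q : α → Prop} (hQ : PolyTime Q) : PolyTime (fun a => PT.ind (Q a)) :=
  PolyTime.ind hQ.toPred

@[fun_prop]
theorem PolyTime.dec' {Q : α → Prop} (hQ : PolyTime Q) : PolyTime (fun a => PT.dec (Q a)) :=
  PolyTime.dec hQ.toPred

/-! ### Compositional forms of the primitive functions -/

@[fun_prop]
theorem PolyTime.succ' {f : α → ℕ} (hf : PolyTime f) : PolyTime (fun a => Nat.succ (f a)) :=
  PolyTime.succ.comp hf

@[fun_prop]
theorem PolyTime.pred' {f : α → ℕ} (hf : PolyTime f) : PolyTime (fun a => Nat.pred (f a)) :=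
  PolyTime.pred.comp hf

@[fun_prop]
theorem PolyTime.not' {f : α → Bool} (hf : PolyTime f) : PolyTime (fun a => !(f a)) :=
  PolyTime.not.comp hf

@[fun_prop]
theorem PolyTime.and' {f g : α → Bool} (hf : PolyTime f) (hg : PolyTime g) :
    PolyTime (fun a => f a && g a) := PolyTime.and.comp (hf.pair hg)

@[fun_prop]
theorem PolyTime.or' {f g : α → Bool} (hf : PolyTime f) (hg : PolyTime g) :
    PolyTime (fun a => f a || g a) := PolyTime.or.comp (hf.pair hg)

@[fun_prop]
theorem PolyTime.isEmpty' {f : α → List β} (hf : PolyTime f) :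
    PolyTime (fun a => (f a).isEmpty) := PolyTime.isNil.comp hf

@[fun_prop]
theorem PolyTime.cons' {f : α → β} {g : α → List β} (hf : PolyTime f) (hg : PolyTime g) :
    PolyTime (fun a => f a :: g a) := PolyTime.cons.comp (hf.pair hg)

@[fun_prop]
theorem PolyTime.tail' {f : α → List β} (hf : PolyTime f) : PolyTime (fun a => (f a).tail) :=
  PolyTime.tail.comp hf

@[fun_prop]
theorem PolyTime.headD' {f : α → List β} (hf : PolyTime f) (d : β) :
    PolyTime (fun a => (f a).headD d) := (PolyTime.headD d).comp hf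

@[fun_prop]
theorem PolyTime.wordToList' {f : α → Word} (hf : PolyTime f) : PolyTime (fun a => (f a).w) :=
  PolyTime.wordToList.comp hf

@[fun_prop]
theorem PolyTime.listToWord' {f : α → List Bool} (hf : PolyTime f) :
    PolyTime (fun a => Word.mk (f a)) := PolyTime.listToWord.comp hf

@[fun_prop]
theorem PolyTime.size' {f : α → β} (hf : PolyTime f) : PolyTime (fun a => esz (f a)) :=
  PolyTime.size.comp hf

/-- The decision function of a predicate, for an arbitrary decidability instance. -/
@[fun_prop]
theorem PolyTime.decide {Q : α → Prop} [∀ a, Decidable (Q a)] (hQ : PolyTime Q) :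
    PolyTime (fun a => decide (Q a)) := by
  obtain ⟨f, hf, h⟩ := hQ.toPred
  refine hf.congr fun a => ?_
  by_cases hq : Q a
  · rw [(h a).2 hq]
    simp [hq]
  · have : f a = false := by
      cases hfa : f a
      · rfl
      · exact absurd ((h a).1 hfa) hq
    rw [this]
    simp [hq]

/-- Conditional with a Boolean condition. -/
@[fun_prop]
theorem PolyTime.bif {c : α → Bool} {f g : α → β} (hc : PolyTime c) (hf : PolyTime f)
    (hg : PolyTime g) : PolyTime (fun a => bif c a then f a else g a) := by
  refine (PolyTime.cond hc hf hg).congr fun a => ?_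
  cases c a <;> rfl

@[fun_prop]
theorem PolyTime.range {n : α → ℕ} (hn : PolyTime n) : PolyTime (fun a => List.range (n a)) := by
  have h : PolyTime (fun a => (List.range (n a)).map (fun i => i)) := by fun_prop
  refine h.congr fun a => ?_
  simp

@[fun_prop]
theorem PolyTime.replicate {n : α → ℕ} {v : α → β} (hn : PolyTime n) (hv : PolyTime v) :
    PolyTime (fun a => List.replicate (n a) (v a)) := by
  have h : PolyTime (fun a => (List.range (n a)).map (fun _ => v a)) := by fun_prop
  refine h.congr fun a => ?_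
  rw [List.map_const', List.length_range]

end Pool.Agent.Helper36.PT
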