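import Pool.Agent.Helper68.PT.Core

/-!
# Polynomial time functions: further types and functions

* encodings of `Option`, `Sum`, `Fin n`;
* equality of elements of arbitrary types with an injective encoding;
* lists: quantifiers over the elements, `any`, `all`, `find?`, `zip`, `sum`, `flatMap`, `map₂`;
* recursion on the natural numbers with Boolean or bounded numerical states.
-/

set_option autoImplicit false

namespace Pool.Agent.Helper36.PT

variable {α β γ σ : Type} [Enc α] [Enc β] [Enc γ] [Enc σ]

/-! ### Further encodings -/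

instance instEncOption : Enc (Option α) :=
  ⟨fun o => match o with
    | none => []
    | some a => true :: enc a⟩

instance instEncSum : Enc (α ⊕ β) :=
  ⟨fun o => match o with
    | .inl a => true :: enc a
    | .inr b => false :: enc b⟩

instance instEncFin (n : ℕ) : Enc (Fin n) := ⟨fun i => enc (i : ℕ)⟩

theorem esz_none : esz (none : Option α) = 0 := rfl
theorem esz_some (a : α) : esz (some a) = esz a + 1 := rfl
theorem esz_inl (a : α) : esz (Sum.inl a : α ⊕ β) = esz a + 1 := rfl
theorem esz_inr (b : β) : esz (Sum.inr b : α ⊕ β) = esz b + 1 := rfl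
theorem esz_fin {n : ℕ} (i : Fin n) : esz i = i := by
  change esz (i : ℕ) = i
  exact esz_nat _

/-- Push the letter `c` in front of the word of the top frame. -/
theorem does_pushF (c : Bool) (w X : List Bool) :
    Does (.seq (.push .x c) (.push .x true)) (fr w ++ X) 2 (fr (c :: w) ++ X) := by
  intro i r o
  exact (ExecLe.push_x c i (fr w ++ X) r [] [] o).seq
    (ExecLe.push_x true i (c :: (fr w ++ X)) r [] [] o)

theorem PolyTime.some : PolyTime (fun a : α => Option.some a) :=
  PolyTime.mk _ (fun _ => 2) (Bdd.const 2) fun a X => does_pushF true (enc a) X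

theorem PolyTime.inl : PolyTime (fun a : α => (Sum.inl a : α ⊕ β)) :=
  PolyTime.mk _ (fun _ => 2) (Bdd.const 2) fun a X => does_pushF true (enc a) X

theorem PolyTime.inr : PolyTime (fun b : β => (Sum.inr b : α ⊕ β)) :=
  PolyTime.mk _ (fun _ => 2) (Bdd.const 2) fun b X => does_pushF false (enc b) X

@[fun_prop]
theorem PolyTime.some' {f : α → β} (hf : PolyTime f) : PolyTime (fun a => Option.some (f a)) :=
  PolyTime.some.comp hf

@[fun_prop]
theorem PolyTime.inl' {f : α → β} (hf : PolyTime f) :
    PolyTime (fun a => (Sum.inl (f a) : β ⊕ γ)) := PolyTime.inl.comp hf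

@[fun_prop]
theorem PolyTime.inr' {f : α → γ} (hf : PolyTime f) :
    PolyTime (fun a => (Sum.inr (f a) : β ⊕ γ)) := PolyTime.inr.comp hf

@[fun_prop]
theorem PolyTime.finVal {n : ℕ} {f : α → Fin n} (hf : PolyTime f) :
    PolyTime (fun a => ((f a : Fin n) : ℕ)) :=
  (PolyTime.of_enc (f := fun i : Fin n => (i : ℕ)) fun _ => rfl).comp hf

/-- A function into `Fin n` is computable in polynomial time if its value is. -/
theorem PolyTime.toFin {n : ℕ} {f : α → Fin n} (hf : PolyTime (fun a => ((f a : Fin n) : ℕ))) :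
    PolyTime f := by
  obtain ⟨p, d, h⟩ := hf
  exact ⟨p, d, h⟩

/-- Case distinction on an option: `f` on `none`, `g` on `some`. -/
theorem PolyTime.optCases {o : α → Option β} {f : α → γ} {g : α → β → γ} (ho : PolyTime o)
    (hf : PolyTime f) (hg : PolyTime (fun p : α × β => g p.1 p.2)) :
    PolyTime (fun a => match o a with
      | Option.none => f a
      | Option.some b => g a b) := by
  obtain ⟨po, t0, ht0, h0⟩ := ho.out
  obtain ⟨p, t, ht, h1⟩ := hf.out
  obtain ⟨q, s, hs, h2⟩ := hg.out
  have hbs : ∃ d, ∀ a b, o a = Option.some b → s (a, b) ≤ (esz a + 2) ^ d := by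
    obtain ⟨d, hd⟩ := hs
    have h3 : Bdd (fun a => (2 * esz a + 1 + esz (o a) + 2) ^ d) :=
      (((((Bdd.const 2).mul Bdd.size).add (Bdd.const 1)).add ho.bdd).add (Bdd.const 2)).pow d
    obtain ⟨e, he⟩ := h3
    refine ⟨e, fun a b hab => (hd (a, b)).trans (le_trans ?_ (he a))⟩
    refine Nat.pow_le_pow_left ?_ d
    have h4 : esz (o a) = esz b + 1 := by
      rw [hab]
      exact esz_some b
    rw [esz_pair, h4]
    omega
  obtain ⟨d, hd⟩ := hbs
  refine PolyTime.mk (.seq dupF (.seq po (caseF (.seq dropF p) .skip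
      (.seq swapF (.seq pairF q)))))
    (fun a => (40 * esz a + 40) + (t0 a + ((5 + t a) + ((20 * esz (o a) + 20 * esz a + 20) +
      ((20 * esz a + 10) + (esz a + 2) ^ d)) + 4))) ?_ ?_
  · have hb := ho.bdd
    have hz : Bdd (fun a : α => esz a) := Bdd.size
    exact (((Bdd.const 40).mul hz).add (Bdd.const 40)).add
      (ht0.add ((((Bdd.const 5).add ht).add
        (((((Bdd.const 20).mul hb).add ((Bdd.const 20).mul hz)).add (Bdd.const 20)).add
          ((((Bdd.const 20).mul hz).add (Bdd.const 10)).add
            ((hz.add (Bdd.const 2)).pow d)))).add (Bdd.const 4)))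
  · intro a X
    refine does_dupF.seq ((h0 a _).seq ?_)
    cases hoa : o a with
    | none =>
      have hd' : Does dropF (fr [] ++ (fr (enc a) ++ X)) 4 (fr (enc a) ++ X) := does_dropF
      refine (does_caseF_nil (hd'.seq (h1 a X))).mono ?_
      omega
    | some b =>
      have e : esz (o a) = esz b + 1 := by
        rw [hoa]
        exact esz_some b
      have k1 : Does swapF (fr (enc b) ++ (fr (enc a) ++ X)) (20 * esz b + 20 * esz a + 20)
          (fr (enc a) ++ (fr (enc b) ++ X)) := does_swapF
      have k2 : Does pairF (fr (enc a) ++ (fr (enc b) ++ X)) (20 * esz a + 10)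
          (fr (enc (a, b)) ++ X) := does_pairF
      have k3 := (h2 (a, b) X).mono (hd a b hoa)
      refine (does_caseF_true (k1.seq (k2.seq k3))).mono ?_
      rw [← hoa, e]
      omega

/-- Case distinction on a sum. -/
theorem PolyTime.sumCases {ε : Type} [Enc ε] {o : α → β ⊕ γ} {f : α → β → ε} {g : α → γ → ε}
    (ho : PolyTime o) (hf : PolyTime (fun p : α × β => f p.1 p.2))
    (hg : PolyTime (fun p : α × γ => g p.1 p.2)) :
    PolyTime (fun a => match o a with
      | .inl b => f a b
      | .inr c => g a c) := by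
  obtain ⟨po, t0, ht0, h0⟩ := ho.out
  obtain ⟨p, t, ht, h1⟩ := hf.out
  obtain ⟨q, s, hs, h2⟩ := hg.out
  have hbt : ∃ d, ∀ a b, o a = Sum.inl b → t (a, b) ≤ (esz a + 2) ^ d := by
    obtain ⟨d, hd⟩ := ht
    have h3 : Bdd (fun a => (2 * esz a + 1 + esz (o a) + 2) ^ d) :=
      (((((Bdd.const 2).mul Bdd.size).add (Bdd.const 1)).add ho.bdd).add (Bdd.const 2)).pow d
    obtain ⟨e, he⟩ := h3
    refine ⟨e, fun a b hab => (hd (a, b)).trans (le_trans ?_ (he a))⟩
    refine Nat.pow_le_pow_left ?_ d
    have h4 : esz (o a) = esz b + 1 := by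
      rw [hab]
      exact esz_inl b
    rw [esz_pair, h4]
    omega
  have hbs : ∃ d, ∀ a c, o a = Sum.inr c → s (a, c) ≤ (esz a + 2) ^ d := by
    obtain ⟨d, hd⟩ := hs
    have h3 : Bdd (fun a => (2 * esz a + 1 + esz (o a) + 2) ^ d) :=
      (((((Bdd.const 2).mul Bdd.size).add (Bdd.const 1)).add ho.bdd).add (Bdd.const 2)).pow d
    obtain ⟨e, he⟩ := h3
    refine ⟨e, fun a b hab => (hd (a, b)).trans (le_trans ?_ (he a))⟩
    refine Nat.pow_le_pow_left ?_ d
    have h4 : esz (o a) = esz b + 1 := by
      rw [hab]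
      exact esz_inr b
    rw [esz_pair, h4]
    omega
  obtain ⟨d, hd⟩ := hbt
  obtain ⟨e, he⟩ := hbs
  refine PolyTime.mk (.seq dupF (.seq po (caseF .skip (.seq swapF (.seq pairF q))
      (.seq swapF (.seq pairF p)))))
    (fun a => (40 * esz a + 40) + (t0 a + (((20 * esz (o a) + 20 * esz a + 20) +
      ((20 * esz a + 10) + ((esz a + 2) ^ d + (esz a + 2) ^ e))) + 4))) ?_ ?_
  · have hb := ho.bdd
    have hz : Bdd (fun a : α => esz a) := Bdd.size
    exact (((Bdd.const 40).mul hz).add (Bdd.const 40)).add
      (ht0.add (((((((Bdd.const 20).mul hb).add ((Bdd.const 20).mul hz)).add (Bdd.const 20)).add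
          ((((Bdd.const 20).mul hz).add (Bdd.const 10)).add
            (((hz.add (Bdd.const 2)).pow d).add ((hz.add (Bdd.const 2)).pow e))))).add
            (Bdd.const 4)))
  · intro a X
    refine does_dupF.seq ((h0 a _).seq ?_)
    cases hoa : o a with
    | inl b =>
      have e1 : esz (o a) = esz b + 1 := by
        rw [hoa]
        exact esz_inl b
      have k1 : Does swapF (fr (enc b) ++ (fr (enc a) ++ X)) (20 * esz b + 20 * esz a + 20)
          (fr (enc a) ++ (fr (enc b) ++ X)) := does_swapF
      have k2 : Does pairF (fr (enc a) ++ (fr (enc b) ++ X)) (20 * esz a + 10)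
          (fr (enc (a, b)) ++ X) := does_pairF
      have k3 := (h1 (a, b) X).mono (hd a b hoa)
      refine (does_caseF_true (k1.seq (k2.seq k3))).mono ?_
      rw [← hoa, e1]
      omega
    | inr b =>
      have e1 : esz (o a) = esz b + 1 := by
        rw [hoa]
        exact esz_inr b
      have k1 : Does swapF (fr (enc b) ++ (fr (enc a) ++ X)) (20 * esz b + 20 * esz a + 20)
          (fr (enc a) ++ (fr (enc b) ++ X)) := does_swapF
      have k2 : Does pairF (fr (enc a) ++ (fr (enc b) ++ X)) (20 * esz a + 10)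
          (fr (enc (a, b)) ++ X) := does_pairF
      have k3 := (h2 (a, b) X).mono (he a b hoa)
      refine (does_caseF_false (k1.seq (k2.seq k3))).mono ?_
      rw [← hoa, e1]
      omega

end Pool.Agent.Helper36.PT
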